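import Pool.Agent.H17.Thin.Small

/-!
# The exact gap constants of `2`-thin and `3`-thin posets

A poset is `K`-thin if every element is incomparable to at most `K` other elements.  The balance
constant `balance` and the class `InD` (the class `𝒟`) are those of the problem.

* The least balance constant of a finite `2`-thin poset outside `𝒟` is `3 / 8`; it is attained by
  a poset with five elements.
* The least balance constant of a finite `3`-thin poset outside `𝒟` is `37 / 106`; it is attained
  by a poset with ten elements.

Both extremal posets have width two.  (For all posets of width two the infimum `0.348842...` is not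
attained; it is smaller than `37 / 106 = 0.349056...`.)

Proof.  If all pairs are unbalanced with the constant `3 / 8` or `37 / 106`, the poset is revealed
from the bottom in a tree of cases (31 and 111 nodes).  Each leaf is excluded by an exact
nonnegative combination of linear inequalities for the numbers of completions of the initial
segments, which is contradictory since the inequalities for the pairs are strict; the leaves which
consist of the extremal posets are excluded with equality.
-/

namespace Pool.Agent.Results.MP_33fb9b_co.ExactThin

open Pool.Agent.H13R3.WB Pool.Agent.H17.Thin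

theorem result :
    IsLeast {d : ℝ | ∃ (P : Type) (_ : Fintype P) (_ : PartialOrder P), Nonempty P ∧
      (∀ x : P, Nat.card {y : P // ¬ x ≤ y ∧ ¬ y ≤ x} ≤ 2) ∧ ¬ InD P ∧ balance P = d} (3 / 8) ∧
    IsLeast {d : ℝ | ∃ (P : Type) (_ : Fintype P) (_ : PartialOrder P), Nonempty P ∧
      (∀ x : P, Nat.card {y : P // ¬ x ≤ y ∧ ¬ y ≤ x} ≤ 3) ∧ ¬ InD P ∧ balance P = d}
      (37 / 106) := by
  have n5 : Nonempty T5.W := ⟨T5.X 0⟩
  have n10 : Nonempty T10.W := ⟨T10.X 0⟩
  refine ⟨⟨⟨T5.W, inferInstance, inferInstance, n5, thin_T5, not_InD5, ?_⟩, ?_⟩,
    ⟨⟨T10.W, inferInstance, inferInstance, n10, thin_T10, not_InD10, ?_⟩, ?_⟩⟩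
  · exact le_antisymm balance_T5 ((gap2 T5.W thin_T5).resolve_left not_InD5)
  · rintro _ ⟨P, _, _, hn, h1, h2, rfl⟩
    exact (gap2 P h1).resolve_left h2
  · exact le_antisymm balance_T10 ((gap3 T10.W thin_T10).resolve_left not_InD10)
  · rintro _ ⟨P, _, _, hn, h1, h2, rfl⟩
    exact (gap3 P h1).resolve_left h2

end Pool.Agent.Results.MP_33fb9b_co.ExactThin
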