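import Pool.Agent.H17.Thin.D7.All
import Pool.Agent.H17.Thin.Loc

/-!
# The gap above `1/3` for `7`-thin posets, and for posets which are `7`-thin at the bottom

The balance constant `balance` and the class `InD` (the class `𝒟`) are those of the problem.

* Every finite poset in which each element is incomparable to at most seven others is in `𝒟` or has
  balance constant at least `0.334`.
* Only the bottom of the poset matters: if a finite poset has no least element, and does not have
  the form `ℰ ⊕ Q`, and if each element with at most fifteen elements below it is incomparable to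
  at most seven elements, then there are two elements with at most fifteen elements below each,
  for which both probabilities are at least `0.334`.

The `1/3`-`2/3` conjecture was known for `6`-thin posets (Peczarski).

Proof.  A tree of cases with 27471 nodes and 12197 leaves, in which the poset is revealed from the
bottom; each leaf is excluded by a nonnegative combination of linear inequalities for the numbers of
completions of the initial segments.  The inequalities are the recursion for these numbers, the
inequality `P(x before y) < 0.334` or `P(y before x) < 0.334` for each pair, and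
`E I ≤ (K + 1 - c) * E (I + z)` for an element `z` which can come next, where `c` is the number of
elements of `I` incomparable to `z`.  The checker is proved to be sound, and it is evaluated by
the kernel.
-/

namespace Pool.Agent.Results.MP_33fb9b_co.SevenThin

open Pool.Agent.H13R3.WB

theorem result :
    (∀ (P : Type) [Fintype P] [PartialOrder P] [Nonempty P],
      (∀ x : P, Nat.card {y : P // ¬ x ≤ y ∧ ¬ y ≤ x} ≤ 7) → InD P ∨ 334 / 1000 ≤ balance P) ∧
    (∀ (P : Type) [Fintype P] [PartialOrder P] [Nonempty P],
      (¬ ∃ x : P, ∀ y, x ≤ y) →
      (¬ ∃ u v w : P, u < v ∧ (¬ w ≤ u ∧ ¬ u ≤ w) ∧ (¬ w ≤ v ∧ ¬ v ≤ w) ∧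
        ∀ p, p = u ∨ p = v ∨ p = w ∨ (u < p ∧ v < p ∧ w < p)) →
      (∀ x : P, Nat.card {y : P // y < x} ≤ 15 → Nat.card {y : P // ¬ x ≤ y ∧ ¬ y ≤ x} ≤ 7) →
      ∃ x y : P, x ≠ y ∧ Nat.card {z : P // z < x} ≤ 15 ∧ Nat.card {z : P // z < y} ≤ 15 ∧
        334 / 1000 ≤ prob P x y ∧ 334 / 1000 ≤ prob P y x) := by
  have e : ((167 : ℕ) : ℝ) / ((500 : ℕ) : ℝ) = 334 / 1000 := by norm_num
  constructor
  · intro P _ _ _ h
    have h1 := Pool.Agent.H17.Thin.global_gap (K := 7) (W := 99) (a := 167) (b := 500)
      (by norm_num) (by norm_num) Pool.Agent.H17.Thin.D7.good P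
      (Pool.Agent.H17.Thin.thinW_of (by norm_num) h)
    rw [e] at h1
    exact h1
  · intro P _ _ _ h1 h2 h3
    have h4 := Pool.Agent.H17.Thin.local_plain (K := 7) (W := 99) (a := 167) (b := 500)
      (by norm_num) (by norm_num) (by norm_num) Pool.Agent.H17.Thin.D7.good P h1 h2 h3
    rw [e] at h4
    exact h4

end Pool.Agent.Results.MP_33fb9b_co.SevenThin
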