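import Pool.Agent.H17.Thin.D6.All
import Pool.Agent.H17.Thin.Up

/-!
# The gap constant of `6`-thin posets, up to `5 / 100000`

A poset is `K`-thin if every element is incomparable to at most `K` other elements.  The balance
constant `balance` and the class `InD` (the class `𝒟`) are those of the problem.

* Every finite `6`-thin poset outside `𝒟` has balance constant at least `0.3488`.
* There is a poset with 41 elements, outside `𝒟`, in which every element is incomparable to at most
  five others and whose balance constant is `0.348842...`, below `0.348843`.

So the best constant for `6`-thin posets is between `0.3488` and `0.348843`; in particular the gap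
above `1/3` is not smaller than for posets of width two, up to `5 / 100000`, although `6`-thin
posets can have width seven.

Proof.  Let `E I` be the number of completions of an initial segment `I` to a linear extension.  If
all elements below `z` are in `I`, and `z` is not, then `z` has at most one place more than there
are remaining elements incomparable to it, and its first place is the most likely one, so
`E I ≤ (K + 1 - c) * E (I + z)`, where `c` is the number of elements of `I` incomparable to `z`.
With `E I ≥ ∑ E (I + x)`, with equality if all possible next elements are known, and with the
inequalities `P(x before y) < 0.3488` or `P(y before x) < 0.3488` for all pairs one has a system of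
linear inequalities for the numbers of completions.  A tree of cases (revealing the elements from
the bottom, in which order they come, and which of the two inequalities holds) is searched; it has
19739 nodes and 8331 leaves, and in each leaf a nonnegative combination of the inequalities is
contradictory.  The checker of the tree is proved to be sound, and it is evaluated by the kernel.
-/

namespace Pool.Agent.Results.MP_33fb9b_co.SixThin

open Pool.Agent.H13R3.WB

theorem result :
    (∀ (P : Type) [Fintype P] [PartialOrder P] [Nonempty P],
      (∀ x : P, Nat.card {y : P // ¬ x ≤ y ∧ ¬ y ≤ x} ≤ 6) → InD P ∨ 3488 / 10000 ≤ balance P) ∧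
    ∃ (P : Type) (_ : Fintype P) (_ : PartialOrder P), Fintype.card P = 41 ∧
      (∀ x : P, Nat.card {y : P // ¬ x ≤ y ∧ ¬ y ≤ x} ≤ 5) ∧ ¬ InD P ∧
        balance P < 348843 / 1000000 := by
  refine ⟨fun P _ _ _ h => ?_, Pool.Agent.W853.T41.W, inferInstance, inferInstance,
    Pool.Agent.W853.T41.card_W, Pool.Agent.H17.Thin.thin_T41, Pool.Agent.W853.not_InD,
    Pool.Agent.W853.balance_T41.trans_lt (by norm_num)⟩
  have h1 := Pool.Agent.H17.Thin.global_gap (K := 6) (W := 99) (a := 218) (b := 625)
    (by norm_num) (by norm_num) Pool.Agent.H17.Thin.D6.good P
    (Pool.Agent.H17.Thin.thinW_of (by norm_num) h)
  rcases h1 with h1 | h1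
  · exact Or.inl h1
  · refine Or.inr (le_trans ?_ h1)
    norm_num

end Pool.Agent.Results.MP_33fb9b_co.SixThin
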