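import Pool.Agent.H17.Thin.DW.All
import Pool.Agent.H17.Thin.Up

/-!
# The gap above `1/3` for `10`-thin posets of width three

The balance constant `balance` and the class `InD` (the class `𝒟`) are those of the problem.

Every finite poset of width at most three in which each element is incomparable to at most ten
others is in `𝒟` or has balance constant at least `0.334`.

The `1/3`-`2/3` conjecture is not known for posets of width three; for posets with an element which
is incomparable to very many others the balance constant is near one half (a starting file).

Proof.  A tree of cases with 11417 nodes and 4284 leaves, in which the poset is revealed from the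
bottom; each leaf is excluded by an antichain with four elements or by a nonnegative combination of
linear inequalities for the numbers of completions of the initial segments.  The inequalities are
the recursion for these numbers, the inequality `P(x before y) < 0.334` or `P(y before x) < 0.334`
for each pair, and `E I ≤ (K + 1 - c) * E (I + z)` for an element `z` which can come next, where
`c` is the number of elements of `I` incomparable to `z`.  The checker is proved to be sound,
and it is evaluated by the kernel.
-/

namespace Pool.Agent.Results.MP_33fb9b_co.WidthThreeTenThin

open Pool.Agent.H13R3.WB

theorem result (P : Type) [Fintype P] [PartialOrder P] [Nonempty P]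
    (hw : ∀ s : Finset P, IsAntichain (· ≤ ·) (s : Set P) → s.card ≤ 3)
    (ht : ∀ x : P, Nat.card {y : P // ¬ x ≤ y ∧ ¬ y ≤ x} ≤ 10) :
    InD P ∨ 334 / 1000 ≤ balance P := by
  have h1 := Pool.Agent.H17.Thin.global_gap (K := 10) (W := 3) (a := 167) (b := 500)
    (by norm_num) (by norm_num) Pool.Agent.H17.Thin.DW.good P
    ⟨ht, fun A hA => hw A (fun x hx y hy hxy => hA x hx y hy hxy)⟩
  have e : ((167 : ℕ) : ℝ) / ((500 : ℕ) : ℝ) = 334 / 1000 := by norm_num
  rw [e] at h1
  exact h1

end Pool.Agent.Results.MP_33fb9b_co.WidthThreeTenThin
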